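import Mathlib
import Pool.Agent.Work.MP_505b57_nt.Defs
import Pool.Agent.Work.MP_505b57_nt.Main

set_option autoImplicit false

namespace Pool.Agent.Results.MP_505b57_nt.PolyFinite

open Pool.Agent.Work.MP_505b57_nt

/-- Q2 has a negative answer. Moreover `P_d(ℚ_p) ∩ PCF` is finite for every prime `p` and every
`d ≥ 2` of the form `d = m * p ^ k` with `1 ≤ m < p` (in particular for all `2 ≤ d ≤ p`). -/
theorem result :
    (¬ ∀ d : ℕ, 2 ≤ d → ∀ (p : ℕ) [Fact p.Prime],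
      (PdQp p d ∩ PCFClasses (AlgebraicClosure ℚ_[p]) d).Infinite) ∧
    (∀ (p : ℕ) [Fact p.Prime] (d m k : ℕ), 2 ≤ d → 1 ≤ m → m < p → d = m * p ^ k →
      (PdQp p d ∩ PCFClasses (AlgebraicClosure ℚ_[p]) d).Finite) := by
  refine ⟨?_, ?_⟩
  · intro h
    haveI : Fact (Nat.Prime 2) := ⟨Nat.prime_two⟩
    exact h 2 le_rfl 2 (finite_PCF 2 2 1 1 le_rfl le_rfl (by norm_num) (by norm_num))
  · intro p _ d m k hd hm1 hmp hdm
    exact finite_PCF p d m k hd hm1 hmp hdm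

end Pool.Agent.Results.MP_505b57_nt.PolyFinite
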